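import Pool.Agent.Run7.h833.HfZ

/-!
# The Grand Lindelöf Hypothesis for `GL(m)`: the exact horizon of the heat flow

`π` runs through the L-functions of cuspidal automorphic representations of `GL_m(𝔸_ℚ)` (`CuspidalL m`);
`C_π(t) = N ∏ (1 + |i t - μ_j|)` is the analytic conductor at the height `t`, `ξ_π(s) = N^(s/2) Λ(s, π)`
and `ξ_τ = e^{τ D²} ξ_π` (`D = d/ds`) its heat flow.  By de Bruijn's theorem the zeros of `ξ_τ` move to the
critical line as `τ` grows.  Let `P` be any set of `π` (for example all of them).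

`RealZeros P κ` says: for every `ε > 0` all zeros `s` of `ξ_τ` with `τ log C_π(Im s) ≥ κ + ε`, `τ` small and
`C_π(Im s)` large are on the critical line, uniformly in `π ∈ P`.  `ZeroFree P κ` says that `Λ(s, π)` has
no zeros in `Re s ≥ 1/2 + κ + ε`, for `C_π(Im s)` large.

Theorem.  (1) For every `κ > 0`, `RealZeros P κ` holds if and only if `ZeroFree P κ` holds and
`L(1/2 + r + i t, π) ≪ C_π(t)^(μ(r) + ε)`, `μ(r) = max(κ - r, 0)² / (4 κ)`, for all `0 ≤ r ≤ 1/2`,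
uniformly in `π ∈ P` and `t`.  (2) If the Grand Lindelöf Hypothesis holds for `P` then
`RealZeros P κ` and `ZeroFree P κ` are equivalent, for every `κ ≥ 0`.  (3) A zero-free half-plane
`ZeroFree P v` and the bound `L(1/2 + i t, π) ≪ C_π(t)^(a + ε)`, `0 ≤ a ≤ v / 2`, give
`RealZeros P (v² / (v - a))`.

Proof (modules `Pool.Agent.Run7.h833.HfX`, `HfY`, `HfZ`): the solution of the heat equation is compared
with a half-line Laplace integral; the majorant `μ(r)` for `0 ≤ r ≤ κ` and the half-plane profile of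
`ξ_π` for `r ≥ κ` bound the integral by its value at the saddle point, so that the functional equation
and a lower bound for the integral exclude zeros off the line.  The converse uses the theorem on few
zeros (project of helper169, `Pool.Agent.W169.HF`) and the backward heat flow.
-/

set_option autoImplicit false

open Complex
open scoped ComplexConjugate

namespace Pool.Agent.Results.MP_52e316_nt.ExactHorizon

/-- Analytic data of a cuspidal automorphic representation of `GL_m(𝔸_ℚ)` (not the trivial one for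
`m = 1`), normalised as in the problem: conductor `N`, archimedean parameters `μ_j` with `Re μ_j ≤ 1/2` and
`∑ Im μ_j = 0` (the central character is trivial on the positive reals), Satake parameters
`|α_j(p)| ≤ √p`, root number `ε`, and the entire completed L-function `Λ` (gamma factors times Euler product
for `Re s > 3/2`) with the functional equation, finite order in vertical strips and no zeros in
`Re s > 1` (all known: Godement-Jacquet, Jacquet-Shalika). -/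
structure CuspidalL (m : ℕ) where
  /-- the conductor -/
  N : ℝ
  /-- the archimedean parameters -/
  μ : Fin m → ℂ
  /-- the Satake parameters -/
  α : Fin m → ℕ → ℂ
  /-- the root number -/
  ε : ℂ
  /-- the completed L-function -/
  Λ : ℂ → ℂ
  one_le : 1 ≤ N
  re_le : ∀ j, (μ j).re ≤ 1 / 2
  normalised : ∑ j, (μ j).im = 0
  norm_le : ∀ j, ∀ p : ℕ, p.Prime → ‖α j p‖ ≤ Real.sqrt p
  norm_eq : ‖ε‖ = 1
  entire : Differentiable ℂ Λ
  euler : ∀ s : ℂ, 3 / 2 < s.re → Λ s = (∏ j, Gammaℝ (s - μ j)) *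
    ∏' p : Nat.Primes, ∏ j, (1 - α j p * (p : ℂ) ^ (-s))⁻¹
  fe : ∀ s : ℂ, Λ s = ε * (N : ℂ) ^ (1 / 2 - s) * conj (Λ (1 - conj s))
  bdd : ∀ a b : ℝ, ∃ M, ∀ s : ℂ, a ≤ s.re → s.re ≤ b → ‖Λ s‖ ≤ Real.exp (M * (1 + |s.im|))
  ne_zero : ∀ s : ℂ, 1 < s.re → Λ s ≠ 0

variable {m : ℕ}

/-- The L-function `L(s, π) = Λ(s, π) / ∏ Γ_ℝ(s - μ_j)`. -/
noncomputable def L (π : CuspidalL m) (s : ℂ) : ℂ := π.Λ s * ∏ j, (Gammaℝ (s - π.μ j))⁻¹

/-- The analytic conductor `C_π = N ∏ (1 + |μ_j|)`. -/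
noncomputable def C (π : CuspidalL m) : ℝ := π.N * ∏ j, (1 + ‖π.μ j‖)

/-- The analytic conductor at the height `t`: `C_π(t) = N ∏ (1 + |i t - μ_j|)`. -/
noncomputable def Ct (π : CuspidalL m) (t : ℝ) : ℝ := π.N * ∏ j, (1 + ‖(t : ℂ) * I - π.μ j‖)

/-- `ξ_π(s) = N^(s/2) Λ(s, π)`. -/
noncomputable def xi (π : CuspidalL m) (s : ℂ) : ℂ := (π.N : ℂ) ^ (s / 2) * π.Λ s

/-- The heat flow `e^{τ D²} F` (`D = d/ds`) as a Gaussian average:
`π^(-1/2) ∫ exp (-v²) F(s + 2 √τ v) dv`. -/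
noncomputable def heat (τ : ℝ) (F : ℂ → ℂ) (s : ℂ) : ℂ :=
  ((1 / Real.sqrt Real.pi : ℝ) : ℂ) *
    ∫ v : ℝ, ((Real.exp (-v ^ 2) : ℝ) : ℂ) * F (s + ((2 * Real.sqrt τ * v : ℝ) : ℂ))

/-- The Grand Lindelöf Hypothesis for the `π` in `P`. -/
def GLH (P : CuspidalL m → Prop) : Prop :=
  ∀ ε : ℝ, 0 < ε → ∃ B : ℝ, ∀ π : CuspidalL m, P π → ∀ t : ℝ,
    ‖L π (1 / 2 + (t : ℂ) * I)‖ ≤ B * ((1 + |t|) * C π) ^ ε

/-- `L(1/2 + r + i t, π) ≪ C_π(t)^(a + ε)` for every `ε > 0`, uniformly in `π ∈ P` and `t`. -/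
def Size (P : CuspidalL m → Prop) (r a : ℝ) : Prop :=
  ∀ ε : ℝ, 0 < ε → ∃ B : ℝ, ∀ π : CuspidalL m, P π → ∀ t : ℝ,
    ‖L π (1 / 2 + (r : ℂ) + (t : ℂ) * I)‖ ≤ B * Ct π t ^ (a + ε)

/-- For every `ε > 0` there are `τ₁ > 0` and `C₀` such that for all `π ∈ P`, all `0 < τ ≤ τ₁` and all
zeros `s` of the heat flow `e^{τ D²} ξ_π` with `C_π(Im s) ≥ C₀` and `τ log C_π(Im s) ≥ κ + ε`, the zero
`s` is on the critical line. -/
def RealZeros (P : CuspidalL m → Prop) (κ : ℝ) : Prop :=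
  ∀ ε : ℝ, 0 < ε → ∃ τ₁ C₀ : ℝ, 0 < τ₁ ∧ ∀ π : CuspidalL m, P π → ∀ (τ : ℝ) (s : ℂ), 0 < τ → τ ≤ τ₁ →
    C₀ ≤ Ct π s.im → κ + ε ≤ τ * Real.log (Ct π s.im) → heat τ (xi π) s = 0 → s.re = 1 / 2

/-- For every `ε > 0` there is `C₀` such that for all `π ∈ P`, `Λ(s, π)` has no zero `s` with
`Re s ≥ 1/2 + κ + ε` and `C_π(Im s) ≥ C₀`. -/
def ZeroFree (P : CuspidalL m → Prop) (κ : ℝ) : Prop :=
  ∀ ε : ℝ, 0 < ε → ∃ C₀ : ℝ, ∀ π : CuspidalL m, P π → ∀ s : ℂ, C₀ ≤ Ct π s.im →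
    1 / 2 + κ + ε ≤ s.re → π.Λ s ≠ 0

open Pool.Agent.W169.HF

lemma std (π : CuspidalL m) : Std π.N π.μ π.α π.ε π.Λ :=
  ⟨{ one_le := π.one_le
     re_le := π.re_le
     norm_le := fun j p hp => by
       rw [← Real.sqrt_eq_rpow]
       exact π.norm_le j p hp
     norm_eq := π.norm_eq
     entire := π.entire
     euler := fun s hs => π.euler s (by linarith)
     fe := π.fe
     bdd := π.bdd }, π.ne_zero⟩

/-- the class of tuples -/
def cls (P : CuspidalL m → Prop) : Cls m := fun N μ α e Λ =>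
  ∃ π : CuspidalL m, P π ∧ π.N = N ∧ π.μ = μ ∧ π.α = α ∧ π.ε = e ∧ π.Λ = Λ

lemma rpow_exp {x : ℝ} (hx : 1 ≤ x) (a : ℝ) : x ^ a = Real.exp (a * Real.log x) := by
  rw [Real.rpow_def_of_pos (by linarith), mul_comm]

lemma C_one (π : CuspidalL m) (t : ℝ) : 1 ≤ (1 + |t|) * C π := by
  have h1 : 1 ≤ ∏ j, (1 + ‖π.μ j‖) := by
    refine Finset.prod_induction _ (fun x => (1 : ℝ) ≤ x) (fun a b ha hb => ?_) le_rfl fun j _ => ?_
    · nlinarith
    · linarith [norm_nonneg (π.μ j)]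
  have h2 : 1 ≤ C π := by
    unfold C
    have := π.one_le
    nlinarith
  have := abs_nonneg t
  nlinarith

lemma size_iff (P : CuspidalL m → Prop) (r a : ℝ) : Size P r a ↔ SEr (cls P) r a := by
  constructor
  · intro h ε hε
    obtain ⟨B, HB⟩ := h ε hε
    refine ⟨Real.log (max B 1), ?_⟩
    rintro N μ α e Λ ⟨π, hP, rfl, rfl, rfl, rfl, rfl⟩ _ y
    have hB : 0 < max B 1 := lt_max_of_lt_right one_pos
    refine (HB π hP y).trans ?_
    have h1 : 1 ≤ cnd π.N π.μ y := cnd_pos π.one_le π.μ y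
    change B * cnd π.N π.μ y ^ (a + ε) ≤ _
    rw [rpow_exp h1, Real.exp_add, Real.exp_log hB]
    exact mul_le_mul_of_nonneg_right (le_max_left _ _) (Real.exp_pos _).le
  · intro h ε hε
    obtain ⟨B, HB⟩ := h ε hε
    refine ⟨Real.exp B, fun π hP t => ?_⟩
    have h2 := HB π.N π.μ π.α π.ε π.Λ ⟨π, hP, rfl, rfl, rfl, rfl, rfl⟩ (std π) t
    have h1 : 1 ≤ cnd π.N π.μ t := cnd_pos π.one_le π.μ t
    change _ ≤ Real.exp B * cnd π.N π.μ t ^ (a + ε)
    rw [rpow_exp h1, ← Real.exp_add]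
    exact h2

lemma glh_to (hm : 1 ≤ m) (P : CuspidalL m → Prop) : GLH P ↔ SE (cls P) 0 := by
  have hm' : (1 : ℝ) ≤ m := by exact_mod_cast hm
  constructor
  · intro h ε hε
    obtain ⟨B, HB⟩ := h (ε / (m + 2)) (by positivity)
    refine ⟨Real.log (max B 1), ?_⟩
    rintro N μ α e Λ ⟨π, hP, rfl, rfl, rfl, rfl, rfl⟩ _ y
    have hB : 0 < max B 1 := lt_max_of_lt_right one_pos
    refine (HB π hP y).trans ?_
    rw [rpow_exp (C_one π y), Real.exp_add, Real.exp_log hB]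
    refine mul_le_mul (le_max_left _ _) (Real.exp_le_exp.2 ?_) (Real.exp_pos _).le hB.le
    have h1 := (cnd_norm π.one_le π.μ hm π.normalised y).1
    change Real.log ((1 + |y|) * C π) ≤ _ at h1
    rw [div_mul_eq_mul_div, div_le_iff₀ (by positivity), zero_add]
    have h2 := mul_le_mul_of_nonneg_left h1 hε.le
    linarith
  · intro h ε hε
    obtain ⟨B, HB⟩ := h (ε / m) (by positivity)
    refine ⟨Real.exp B, fun π hP t => ?_⟩
    have h2 := HB π.N π.μ π.α π.ε π.Λ ⟨π, hP, rfl, rfl, rfl, rfl, rfl⟩ (std π) t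
    refine h2.trans ?_
    rw [rpow_exp (C_one π t), ← Real.exp_add]
    apply Real.exp_le_exp.2
    have h1 := (cnd_norm π.one_le π.μ hm π.normalised t).2
    change _ ≤ (m : ℝ) * Real.log ((1 + |t|) * C π) at h1
    have h3 : (0 + ε / m) * Real.log (cnd π.N π.μ t) ≤ ε * Real.log ((1 + |t|) * C π) := by
      rw [zero_add, div_mul_eq_mul_div, div_le_iff₀ (by positivity)]
      have h4 := mul_le_mul_of_nonneg_left h1 hε.le
      linarith
    linarith

lemma zf_iff (P : CuspidalL m → Prop) (κ : ℝ) : ZeroFree P κ ↔ Run7.h833.ZF (cls P) κ := by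
  constructor
  · intro h ε hε
    obtain ⟨C0, H⟩ := h ε hε
    refine ⟨C0, ?_⟩
    rintro N μ α e Λ ⟨π, hP, rfl, rfl, rfl, rfl, rfl⟩ _ s hC hs
    exact H π hP s hC hs
  · intro h ε hε
    obtain ⟨C0, H⟩ := h ε hε
    exact ⟨C0, fun π hP s hC hs =>
      H π.N π.μ π.α π.ε π.Λ ⟨π, hP, rfl, rfl, rfl, rfl, rfl⟩ (std π) s hC hs⟩

lemma rz_iff (hm : 1 ≤ m) (P : CuspidalL m → Prop) (κ : ℝ) : RealZeros P κ ↔ SH (cls P) κ := by
  constructor
  · intro h ε X hε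
    obtain ⟨τ1, C0, hτ1, H⟩ := h ε hε
    refine ⟨max C0 (Real.exp (max X 1 / τ1)), ?_⟩
    rintro N μ α e Λ ⟨π, hP, rfl, rfl, rfl, rfl, rfl⟩ _ t s ht hC h1 h2 hz
    refine H π hP t s ht ?_ ((le_max_left _ _).trans hC) h1 hz
    have h3 := lt_log ((le_max_right _ _).trans hC)
    rw [div_le_iff₀ hτ1] at h3
    have h4 : 0 < Real.log (cnd π.N π.μ s.im) := by
      by_contra hcon
      push Not at hcon
      have : Real.log (cnd π.N π.μ s.im) * τ1 ≤ 0 := mul_nonpos_of_nonpos_of_nonneg hcon hτ1.le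
      linarith [le_max_right X 1]
    have h5 : t * Real.log (cnd π.N π.μ s.im) ≤ τ1 * Real.log (cnd π.N π.μ s.im) := by
      linarith [le_max_left X 1]
    exact le_of_mul_le_mul_right h5 h4
  · intro h ε hε
    obtain ⟨t1, C1, ht1, H1⟩ := aut_local m hm (θ := 1 / 2) (η := 1) (by norm_num) le_rfl one_pos
    obtain ⟨C0, H⟩ := h ε 3 hε
    refine ⟨t1, max C0 C1, ht1, fun π hP t s ht htt hC h1 hz => ?_⟩
    rcases le_total (t * Real.log (cnd π.N π.μ s.im)) 3 with h2 | h2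
    · exact H π.N π.μ π.α π.ε π.Λ ⟨π, hP, rfl, rfl, rfl, rfl, rfl⟩ (std π) t s ht
        ((le_max_left _ _).trans hC) h1 h2 hz
    · exact H1 π.N π.μ π.α π.ε π.Λ (std π).1 t s ht htt ((le_max_right _ _).trans hC)
        (by linarith) hz

/-- **Main theorem.** Let `m ≥ 1` and let `P` be a set of `π`.  (1) For every `κ > 0`, `RealZeros P κ` is
equivalent to `ZeroFree P κ` together with
`L(1/2 + r + i t, π) ≪ C_π(t)^(max(κ - r, 0)² / (4 κ) + ε)` for all `0 ≤ r ≤ 1/2`; (2) under GLH for `P`,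
`RealZeros P κ` is equivalent to `ZeroFree P κ` for every `κ ≥ 0`; (3) `ZeroFree P v` and
`L(1/2 + i t, π) ≪ C_π(t)^(a + ε)`, `0 ≤ a ≤ v / 2`, `0 < v ≤ 1/2`, imply `RealZeros P (v² / (v - a))`. -/
theorem result (hm : 1 ≤ m) (P : CuspidalL m → Prop) :
    (∀ κ : ℝ, 0 < κ → (RealZeros P κ ↔ ZeroFree P κ ∧
      ∀ r : ℝ, 0 ≤ r → r ≤ 1 / 2 → Size P r (max (κ - r) 0 ^ 2 / (4 * κ)))) ∧
    (GLH P → ∀ κ : ℝ, 0 ≤ κ → (RealZeros P κ ↔ ZeroFree P κ)) ∧
    ∀ v a : ℝ, 0 < v → v ≤ 1 / 2 → 0 ≤ a → a ≤ v / 2 → ZeroFree P v → Size P 0 a →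
      RealZeros P (v ^ 2 / (v - a)) := by
  refine ⟨fun κ hκ => ?_, fun h κ hκ => ?_, fun v a hv hv1 ha hav hZ hS => ?_⟩
  · rw [rz_iff hm, zf_iff, Run7.h833.sh_iff hm hκ]
    simp only [size_iff]
  · rw [rz_iff hm, zf_iff]
    exact Run7.h833.sh_zf_iff hm ((glh_to hm P).1 h) hκ
  · rw [rz_iff hm]
    refine Run7.h833.zf_se_sh hm hv hv1 ha (by linarith) ((zf_iff P v).1 hZ) ?_
    exact ser0.1 ((size_iff P 0 a).1 hS)

end Pool.Agent.Results.MP_52e316_nt.ExactHorizon
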