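import Pool.Agent.Run7.h833.NwB

/-!
# The Grand Lindelöf Hypothesis for `GL(m)` and the de Bruijn-Newman constants

`π` runs through the L-functions of cuspidal automorphic representations of `GL_m(𝔸_ℚ)` (`CuspidalL m`);
`C_π` is the analytic conductor, `C_π(t) = N ∏ (1 + |i t - μ_j|)` the analytic conductor at the height `t`,
`ξ_π(s) = N^(s/2) Λ(s, π)` and `ξ_τ = e^{τ D²} ξ_π` (`D = d/ds`) its heat flow.  If all zeros of `ξ_τ` are
on the line `Re s = 1/2`, the same is true for all larger `τ` (de Bruijn).  The de Bruijn-Newman constant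
`Newman π` is the infimum of the `τ ≥ 0` for which this holds; it is `0` if the Riemann hypothesis holds for
`π`.

It was known that `Newman π ≤ (1 + o(1)) / log C` if `C_π(t) ≥ C` for all `t`.  Here we determine
`Newman π` for every single `π`, up to an error `o(1 / log C_π)`.

Theorem.  (1) (No hypothesis.)  `Newman π` is, up to `o(1 / log C_π)`, the supremum of the numbers
`(Re ρ - 1/2) / log C_π(Im ρ)` for the zeros `ρ` and of the numbers `g(r, a) / log C_π(t)` for the large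
values `|L(1/2 + r + i t, π)| = C_π(t)^a`, `a ≥ δ`, `0 ≤ r ≤ 1/2`, where `g(r, a) = r + 2a + 2 √(a (a + r))`.

(2) If the Grand Lindelöf Hypothesis holds for the `π` in `P` then, as `C_π → ∞`, `π ∈ P`,
`Newman π = sup_ρ (Re ρ - 1/2) / log C_π(Im ρ) + o(1 / log C_π)`.

(3) `Newman π = o(1 / log C_π)` for `π ∈ P` if and only if for all `ε > 0` and `A` and all `π ∈ P` of
large analytic conductor `|L(1/2 + i t, π)| ≤ C_π^ε` for `|t| ≤ C_π^A` and all zeros `ρ` with
`|Im ρ| ≤ C_π^A` satisfy `Re ρ < 1/2 + ε`.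

Proof (modules `Pool.Agent.Run7.h833.NwA`, `NwB`): the local theorems on the zeros of the heat flow in
`Pool.Agent.Run7.h833.HfY` (zeros on the line from the sizes and the zero-free half-strip) and in the
starting modules `Pool.Agent.W169.HF` (project of helper169: the converse directions), and the
monotonicity.
-/

set_option autoImplicit false

open Complex
open scoped ComplexConjugate

namespace Pool.Agent.Results.MP_52e316_nt.NewmanConstants

/-- Analytic data of a cuspidal automorphic representation of `GL_m(𝔸_ℚ)` (not the trivial one for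
`m = 1`), normalised as in the problem: conductor `N`, archimedean parameters `μ_j` with `Re μ_j ≤ 1/2` and
`∑ Im μ_j = 0` (the central character is trivial on the positive reals), Satake parameters
`|α_j(p)| ≤ √p`, root number `ε`, and the entire completed L-function `Λ` (gamma factors times Euler product
for `Re s > 3/2`) with the functional equation, finite order in vertical strips and no zeros in
`Re s > 1` (all known: Godement-Jacquet, Jacquet-Shalika). -/
structure CuspidalL (m : ℕ) where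
  /-- the conductor -/
  N : ℝ
  /-- the archimedean parameters -/
  μ : Fin m → ℂ
  /-- the Satake parameters -/
  α : Fin m → ℕ → ℂ
  /-- the root number -/
  ε : ℂ
  /-- the completed L-function -/
  Λ : ℂ → ℂ
  one_le : 1 ≤ N
  re_le : ∀ j, (μ j).re ≤ 1 / 2
  normalised : ∑ j, (μ j).im = 0
  norm_le : ∀ j, ∀ p : ℕ, p.Prime → ‖α j p‖ ≤ Real.sqrt p
  norm_eq : ‖ε‖ = 1
  entire : Differentiable ℂ Λ
  euler : ∀ s : ℂ, 3 / 2 < s.re → Λ s = (∏ j, Gammaℝ (s - μ j)) *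
    ∏' p : Nat.Primes, ∏ j, (1 - α j p * (p : ℂ) ^ (-s))⁻¹
  fe : ∀ s : ℂ, Λ s = ε * (N : ℂ) ^ (1 / 2 - s) * conj (Λ (1 - conj s))
  bdd : ∀ a b : ℝ, ∃ M, ∀ s : ℂ, a ≤ s.re → s.re ≤ b → ‖Λ s‖ ≤ Real.exp (M * (1 + |s.im|))
  ne_zero : ∀ s : ℂ, 1 < s.re → Λ s ≠ 0

variable {m : ℕ}

/-- The L-function `L(s, π) = Λ(s, π) / ∏ Γ_ℝ(s - μ_j)`. -/
noncomputable def L (π : CuspidalL m) (s : ℂ) : ℂ := π.Λ s * ∏ j, (Gammaℝ (s - π.μ j))⁻¹

/-- The analytic conductor `C_π = N ∏ (1 + |μ_j|)`. -/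
noncomputable def C (π : CuspidalL m) : ℝ := π.N * ∏ j, (1 + ‖π.μ j‖)

/-- The analytic conductor at the height `t`: `C_π(t) = N ∏ (1 + |i t - μ_j|)`. -/
noncomputable def Ct (π : CuspidalL m) (t : ℝ) : ℝ := π.N * ∏ j, (1 + ‖(t : ℂ) * I - π.μ j‖)

/-- `ξ_π(s) = N^(s/2) Λ(s, π)`. -/
noncomputable def xi (π : CuspidalL m) (s : ℂ) : ℂ := (π.N : ℂ) ^ (s / 2) * π.Λ s

/-- The heat flow `e^{τ D²} F` (`D = d/ds`) as a Gaussian average:
`π^(-1/2) ∫ exp (-v²) F(s + 2 √τ v) dv`. -/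
noncomputable def heat (τ : ℝ) (F : ℂ → ℂ) (s : ℂ) : ℂ :=
  ((1 / Real.sqrt Real.pi : ℝ) : ℂ) *
    ∫ v : ℝ, ((Real.exp (-v ^ 2) : ℝ) : ℂ) * F (s + ((2 * Real.sqrt τ * v : ℝ) : ℂ))

/-- All zeros of the heat flow at the time `τ` are on the line. -/
def AllOn (π : CuspidalL m) (τ : ℝ) : Prop := ∀ s : ℂ, heat τ (xi π) s = 0 → s.re = 1 / 2

/-- The de Bruijn-Newman constant of `π`. -/
noncomputable def Newman (π : CuspidalL m) : ℝ := sInf {τ : ℝ | 0 ≤ τ ∧ AllOn π τ}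

/-- The Grand Lindelöf Hypothesis for the `π` in `P`. -/
def GLH (P : CuspidalL m → Prop) : Prop :=
  ∀ ε : ℝ, 0 < ε → ∃ B : ℝ, ∀ π : CuspidalL m, P π → ∀ t : ℝ,
    ‖L π (1 / 2 + (t : ℂ) * I)‖ ≤ B * ((1 + |t|) * C π) ^ ε

/-- The numbers `(Re ρ - 1/2) / log C_π(Im ρ)` for the zeros `ρ` of `Λ(s, π)`. -/
def zeroLevels (π : CuspidalL m) : Set ℝ :=
  {v | ∃ ρ : ℂ, π.Λ ρ = 0 ∧ v = (ρ.re - 1 / 2) / Real.log (Ct π ρ.im)}

/-- `g(r, a) = r + 2a + 2 √(a (a + r))`. -/
noncomputable def g (r a : ℝ) : ℝ := r + 2 * a + 2 * Real.sqrt (a * (a + r))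

/-- The numbers `g(Re s - 1/2, a) / log C_π(Im s)` for the `s` with `1/2 ≤ Re s ≤ 1` at which
`|L(s, π)| = C_π(Im s)^a` with `a ≥ δ`. -/
def valueLevels (π : CuspidalL m) (δ : ℝ) : Set ℝ :=
  {v | ∃ (s : ℂ) (a : ℝ), 1 / 2 ≤ s.re ∧ s.re ≤ 1 ∧ ‖L π s‖ = Ct π s.im ^ a ∧ δ ≤ a ∧
    v = g (s.re - 1 / 2) a / Real.log (Ct π s.im)}

/-- `Newman π = o(1 / log C_π)` for the `π` in `P`. -/
def NewmanSmall (P : CuspidalL m → Prop) : Prop :=
  ∀ ε : ℝ, 0 < ε → ∃ Q₀ : ℝ, ∀ π : CuspidalL m, P π → Q₀ ≤ C π → Newman π ≤ ε / Real.log (C π)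

/-- Lindelöf bound and zeros near the line up to polynomial heights: for all `ε > 0` and `A`, if `π ∈ P`
and `C_π` is large, then `|L(1/2 + i t, π)| ≤ C_π^ε` for all `|t| ≤ C_π^A`, and `Re ρ < 1/2 + ε` for all
zeros `ρ` of `Λ(s, π)` with `|Im ρ| ≤ C_π^A`. -/
def PolynomialHeights (P : CuspidalL m → Prop) : Prop :=
  ∀ ε A : ℝ, 0 < ε → ∃ Q₀ : ℝ, ∀ π : CuspidalL m, P π → Q₀ ≤ C π →
    (∀ t : ℝ, |t| ≤ C π ^ A → ‖L π (1 / 2 + (t : ℂ) * I)‖ ≤ C π ^ ε) ∧
    ∀ ρ : ℂ, π.Λ ρ = 0 → |ρ.im| ≤ C π ^ A → ρ.re < 1 / 2 + ε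

open Pool.Agent.W169.HF

lemma std (π : CuspidalL m) : Std π.N π.μ π.α π.ε π.Λ :=
  ⟨{ one_le := π.one_le
     re_le := π.re_le
     norm_le := fun j p hp => by
       rw [← Real.sqrt_eq_rpow]
       exact π.norm_le j p hp
     norm_eq := π.norm_eq
     entire := π.entire
     euler := fun s hs => π.euler s (by linarith)
     fe := π.fe
     bdd := π.bdd }, π.ne_zero⟩

lemma rpow_exp {x : ℝ} (hx : 1 ≤ x) (a : ℝ) : x ^ a = Real.exp (a * Real.log x) := by
  rw [Real.rpow_def_of_pos (by linarith), mul_comm]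

lemma C_ge (π : CuspidalL m) : 1 ≤ C π := by
  have h1 : 1 ≤ ∏ j, (1 + ‖π.μ j‖) := by
    refine Finset.prod_induction _ (fun x => (1 : ℝ) ≤ x) (fun a b ha hb => ?_) le_rfl fun j _ => ?_
    · nlinarith
    · linarith [norm_nonneg (π.μ j)]
  unfold C
  have := π.one_le
  nlinarith

lemma C_one (π : CuspidalL m) (t : ℝ) : 1 ≤ (1 + |t|) * C π := by
  have h2 := C_ge π
  have := abs_nonneg t
  nlinarith

lemma Ct_one (π : CuspidalL m) (t : ℝ) : 1 ≤ Ct π t := cnd_pos π.one_le π.μ t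

lemma lows (hm : 1 ≤ m) (π : CuspidalL m) (t : ℝ) :
    Real.log ((1 + |t|) * C π) ≤ (m + 2) * Real.log (Ct π t) ∧
    Real.log (Ct π t) ≤ m * Real.log ((1 + |t|) * C π) := cnd_norm π.one_le π.μ hm π.normalised t

lemma low (hm : 1 ≤ m) (π : CuspidalL m) (t : ℝ) :
    Real.log (C π) ≤ (m + 2) * Real.log (Ct π t) := by
  refine le_trans (Real.log_le_log (by linarith [C_ge π]) ?_) (lows hm π t).1
  have h2 := C_ge π
  have := abs_nonneg t
  nlinarith

/-- the minimal conductor -/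
noncomputable def Qm (π : CuspidalL m) : ℝ := Real.exp (Real.log (C π) / (m + 2))

lemma Qm_le (hm : 1 ≤ m) (π : CuspidalL m) (t : ℝ) : Qm π ≤ Ct π t := by
  unfold Qm
  rw [← Real.exp_log (by linarith [Ct_one π t] : 0 < Ct π t)]
  apply Real.exp_le_exp.2
  rw [div_le_iff₀ (by positivity)]
  linarith [low hm π t]

lemma log_Qm (π : CuspidalL m) : Real.log (Qm π) = Real.log (C π) / (m + 2) := Real.log_exp _

lemma Qm_large (W : ℝ) : ∃ Q0 : ℝ, 1 < Q0 ∧ ∀ π : CuspidalL m, Q0 ≤ C π → W ≤ Qm π := by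
  refine ⟨Real.exp ((m + 2) * (Real.log (max W 1) + 1)), ?_, fun π h => ?_⟩
  · have : 0 ≤ Real.log (max W 1) := Real.log_nonneg (le_max_right _ _)
    exact Real.one_lt_exp_iff.2 (by positivity)
  · have h1 := lt_log h
    unfold Qm
    have h2 : Real.log (max W 1) ≤ Real.log (C π) / (m + 2) := by
      rw [le_div_iff₀ (by positivity)]
      nlinarith [h1]
    have h3 : max W 1 ≤ Real.exp (Real.log (C π) / (m + 2)) := by
      rw [← Real.exp_log (lt_max_of_lt_right one_pos : 0 < max W 1)]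
      exact Real.exp_le_exp.2 h2
    exact (le_max_left _ _).trans h3

/-- the levels -/
lemma dom_iff (π : CuspidalL m) (hC : ∀ t, 1 < Ct π t) {δ u : ℝ} :
    Run7.h833.Dom π.N π.μ π.Λ δ u ↔ ∀ v ∈ zeroLevels π ∪ valueLevels π δ, v ≤ u := by
  have hl : ∀ t, 0 < Real.log (Ct π t) := fun t => Real.log_pos (hC t)
  constructor
  · intro h v hv
    rcases hv with ⟨ρ, h1, rfl⟩ | ⟨s, a, h1, h2, h3, h4, rfl⟩
    · rw [div_le_iff₀ (hl _)]
      exact h.1 ρ h1
    · rw [div_le_iff₀ (hl _)]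
      have h5 : Real.log ‖L π s‖ / Real.log (Ct π s.im) = a := by
        rw [h3, rpow_exp (hC _).le, Real.log_exp, mul_div_assoc, div_self (hl _).ne', mul_one]
      have h6 := h.2 s h1 h2 (by
        change Real.exp (δ * Real.log (Ct π s.im)) ≤ ‖L π s‖
        rw [h3, rpow_exp (hC _).le]
        exact Real.exp_le_exp.2 (mul_le_mul_of_nonneg_right h4 (hl _).le))
      change Run7.h833.gg (s.re - 1 / 2) (Real.log ‖L π s‖ / Real.log (Ct π s.im)) ≤
        u * Real.log (Ct π s.im) at h6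
      rw [h5] at h6
      exact h6
  · intro h
    refine ⟨fun z hz => ?_, fun z hz1 hz2 hz3 => ?_⟩
    · have h1 := h _ (Or.inl ⟨z, hz, rfl⟩)
      rwa [div_le_iff₀ (hl _)] at h1
    · change Real.exp (δ * Real.log (Ct π z.im)) ≤ ‖L π z‖ at hz3
      change Run7.h833.gg (z.re - 1 / 2) (Real.log ‖L π z‖ / Real.log (Ct π z.im)) ≤
        u * Real.log (Ct π z.im)
      have hpos : 0 < ‖L π z‖ := lt_of_lt_of_le (Real.exp_pos _) hz3
      have h1 := h _ (Or.inr ⟨z, Real.log ‖L π z‖ / Real.log (Ct π z.im), hz1, hz2, ?_, ?_, rfl⟩)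
      · rwa [div_le_iff₀ (hl _)] at h1
      · rw [rpow_exp (hC _).le, div_mul_cancel₀ _ (hl _).ne', Real.exp_log hpos]
      · rw [le_div_iff₀ (hl _), ← Real.log_exp (δ * Real.log (Ct π z.im))]
        exact Real.log_le_log (Real.exp_pos _) hz3

lemma mono (π : CuspidalL m) (hm : 1 ≤ m) {t t' : ℝ} (h0 : 0 ≤ t) (h1 : t ≤ t') (h : AllOn π t) :
    AllOn π t' := by
  obtain ⟨B, hB, HS⟩ := sharpX m hm (show (0 : ℝ) ≤ 1 / 2 by norm_num) le_rfl
    (show (0 : ℝ) < 1 / 2 by norm_num) (by norm_num)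
  obtain ⟨-, hslow, hfe, -, hne⟩ := HS π.N π.μ π.α π.ε π.Λ (std π).1
  exact fun s hs => mono_all (XX π.N π.Λ) hslow ⟨π.ε, π.norm_eq, hfe⟩ hne t t' h0 h1 h s hs

/-- the set is not empty for large conductor -/
lemma nonemp (hm : 1 ≤ m) : ∃ Q0 : ℝ, 1 < Q0 ∧ ∀ π : CuspidalL m, Q0 ≤ C π →
    ∃ τ : ℝ, 0 ≤ τ ∧ AllOn π τ := by
  obtain ⟨Q1, hQ1, H⟩ := sh_sn (P := fun _ _ _ _ _ => True) hm zero_le_one (sh_one hm) 1 one_pos
  obtain ⟨Q0, hQ0, HQ⟩ := Qm_large (m := m) Q1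
  refine ⟨Q0, hQ0, fun π hπ => ⟨(1 + 1) / Real.log (Qm π), ?_, fun s hs => ?_⟩⟩
  · have : 0 < Real.log (Qm π) := Real.log_pos (by linarith [HQ π hπ])
    positivity
  · exact H π.N π.μ π.α π.ε π.Λ trivial (std π) (Qm π) (HQ π hπ) (fun y => Qm_le hm π y) _ le_rfl s hs

lemma newman_le {π : CuspidalL m} {τ : ℝ} (h0 : 0 ≤ τ) (h : AllOn π τ) : Newman π ≤ τ :=
  csInf_le ⟨0, fun _ hx => hx.1⟩ ⟨h0, h⟩

lemma newman_nonneg {π : CuspidalL m} (h : ∃ τ : ℝ, 0 ≤ τ ∧ AllOn π τ) : 0 ≤ Newman π :=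
  le_csInf h fun _ hx => hx.1

lemma allOn_of (hm : 1 ≤ m) {π : CuspidalL m} (h : ∃ τ : ℝ, 0 ≤ τ ∧ AllOn π τ) {τ : ℝ} (hτ : Newman π < τ) :
    AllOn π τ := by
  obtain ⟨τ', ⟨h0, h1⟩, h2⟩ := exists_lt_of_csInf_lt h hτ
  exact mono π hm h0 h2.le h1

/-- the two inequalities -/
lemma two (hm : 1 ≤ m) {ε : ℝ} (hε : 0 < ε) : ∃ δ0 : ℝ, 0 < δ0 ∧ ∀ δ : ℝ, 0 < δ → δ ≤ δ0 →
    ∃ Q0 : ℝ, 1 < Q0 ∧ ∀ π : CuspidalL m, Q0 ≤ C π →
      (∀ u : ℝ, 0 ≤ u → (∀ v ∈ zeroLevels π ∪ valueLevels π δ, v ≤ u) → Newman π ≤ u + ε / Real.log (C π)) ∧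
      ∀ v ∈ zeroLevels π ∪ valueLevels π δ, v ≤ Newman π + ε / Real.log (C π) := by
  obtain ⟨δ0, Q1, hδ0, hQ1, HF⟩ := Run7.h833.nw_fwd m hm (ε0 := ε / (m + 2)) (by positivity)
  refine ⟨δ0, hδ0, fun δ hδ hδ1 => ?_⟩
  obtain ⟨Q2, hQ2, HB⟩ := Run7.h833.nw_bwd m hm (ε0 := ε / 2 / (m + 2)) (δ := δ) (by positivity) hδ
  obtain ⟨Q3, hQ3, HQ⟩ := Qm_large (m := m) (max Q1 Q2)
  obtain ⟨Q4, hQ4, HN⟩ := nonemp hm
  refine ⟨max Q3 Q4, lt_max_of_lt_left hQ3, fun π hπ => ?_⟩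
  have hQ := HQ π ((le_max_left _ _).trans hπ)
  have hq1 : Q1 ≤ Qm π := (le_max_left _ _).trans hQ
  have hq2 : Q2 ≤ Qm π := (le_max_right _ _).trans hQ
  have hne := HN π ((le_max_right _ _).trans hπ)
  have hC1 : 1 < C π := hQ3.trans_le ((le_max_left _ _).trans hπ)
  have hlC : 0 < Real.log (C π) := Real.log_pos hC1
  have hCt : ∀ t, 1 < Ct π t := fun t => lt_of_lt_of_le (by linarith) (Qm_le hm π t)
  have hm2 : (0 : ℝ) < m + 2 := by positivity
  constructor
  · intro u hu h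
    have h1 := (dom_iff π hCt).2 h
    refine newman_le (by positivity) fun s hs => ?_
    refine HF δ hδ hδ1 π.N π.μ π.α π.ε π.Λ (std π) (Qm π) hq1 (fun y => Qm_le hm π y) u hu h1
      (u + ε / Real.log (C π)) ?_ s hs
    rw [log_Qm]
    apply le_of_eq
    field_simp
  · have hN0 := newman_nonneg hne
    have h1 : AllOn π (Newman π + ε / 2 / Real.log (C π)) := allOn_of hm hne (by
      have : 0 < ε / 2 / Real.log (C π) := by positivity
      linarith)
    have h2 := HB π.N π.μ π.α π.ε π.Λ (std π) (Qm π) hq2 (fun y => Qm_le hm π y)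
      (Newman π + ε / 2 / Real.log (C π)) (by positivity) h1
    have h3 := (dom_iff π hCt).1 h2
    intro v hv
    refine (h3 v hv).trans (le_of_eq ?_)
    rw [log_Qm]
    field_simp
    ring

lemma sup_close {S : Set ℝ} {n e : ℝ} (hn : 0 ≤ n) (he : 0 ≤ e) (h1 : ∀ u : ℝ, 0 ≤ u → (∀ v ∈ S, v ≤ u) → n ≤ u + e)
    (h2 : ∀ v ∈ S, v ≤ n + e) : BddAbove S ∧ |n - sSup (insert 0 S)| ≤ e := by
  refine ⟨⟨n + e, h2⟩, ?_⟩
  have hb : BddAbove (insert 0 S) := ⟨n + e, by
    rintro x (rfl | hx)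
    · linarith
    · exact h2 x hx⟩
  have h3 : 0 ≤ sSup (insert 0 S) := le_csSup hb (Set.mem_insert _ _)
  have h4 : sSup (insert 0 S) ≤ n + e := csSup_le ⟨0, Set.mem_insert _ _⟩ (by
    rintro x (rfl | hx)
    · linarith
    · exact h2 x hx)
  have h5 := h1 _ h3 fun v hv => le_csSup hb (Set.mem_insert_of_mem _ hv)
  rw [abs_le]
  constructor <;> linarith

/-- no large values under GLH -/
lemma glh_no (hm : 1 ≤ m) {P : CuspidalL m → Prop} (hP : GLH P) {δ : ℝ} (hδ : 0 < δ) :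
    ∃ Q0 : ℝ, ∀ π : CuspidalL m, P π → Q0 ≤ C π → valueLevels π δ = ∅ := by
  obtain ⟨R, κ', C0, hκ', H⟩ := Run7.h833.novals m hm hδ
  obtain ⟨B, HB⟩ := hP (κ' / 2 / (m + 2)) (by positivity)
  obtain ⟨r, hr⟩ : ∃ r : ℝ, r = m * Real.log (1 + |R|) := ⟨_, rfl⟩
  have hr0 : 0 ≤ r := by
    rw [hr]
    exact mul_nonneg (Nat.cast_nonneg m) (Real.log_nonneg (by linarith [abs_nonneg R]))
  have hBp : 0 < max B 1 := lt_max_of_lt_right one_pos
  have hlB : 0 ≤ Real.log (max B 1) := Real.log_nonneg (le_max_right _ _)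
  obtain ⟨Q1, hQ1, HQ⟩ := Qm_large (m := m) (max C0 (Real.exp (2 * (Real.log (max B 1) + κ' * r) / κ' + 1)))
  refine ⟨Q1, fun π hπ hC => ?_⟩
  rw [Set.eq_empty_iff_forall_notMem]
  rintro v ⟨s, a, h1, h2, h3, h4, -⟩
  have hQ := HQ π hC
  have hc1 : C0 ≤ Ct π s.im := (le_max_left _ _).trans (hQ.trans (Qm_le hm π s.im))
  have hc2 := lt_log ((le_max_right _ _).trans (hQ.trans (Qm_le hm π s.im)))
  have hq : 0 ≤ 2 * (Real.log (max B 1) + κ' * r) / κ' := by positivity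
  have hc3 : 2 * (Real.log (max B 1) + κ' * r) ≤ κ' * Real.log (Ct π s.im) := by
    have h5 : 2 * (Real.log (max B 1) + κ' * r) / κ' ≤ Real.log (Ct π s.im) := by linarith
    rw [div_le_iff₀ hκ'] at h5
    linarith
  have h5 := H π.N π.μ π.α π.ε π.Λ (std π) s h1 h2 hc1 (fun w hw => by
    refine (HB π hπ (s.im + w)).trans ?_
    rw [rpow_exp (C_one π _)]
    have h6 := (lows hm π (s.im + w)).1
    have h7 := logm_shift π.one_le π.μ (y := s.im + w) (y' := s.im) (R := R) (by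
      rw [show s.im - (s.im + w) = -w by ring, abs_neg]
      exact hw.trans (le_abs_self R))
    rw [← hr] at h7
    change Real.log (Ct π (s.im + w)) ≤ Real.log (Ct π s.im) + r at h7
    change _ ≤ Real.exp (κ' * Real.log (Ct π s.im))
    calc B * Real.exp (κ' / 2 / (m + 2) * Real.log ((1 + |s.im + w|) * C π))
        ≤ Real.exp (Real.log (max B 1)) * Real.exp (κ' / 2 * (Real.log (Ct π s.im) + r)) := by
          rw [Real.exp_log hBp]
          refine mul_le_mul (le_max_left _ _) (Real.exp_le_exp.2 ?_) (Real.exp_pos _).le hBp.le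
          have h8 : Real.log ((1 + |s.im + w|) * C π) ≤ (m + 2) * (Real.log (Ct π s.im) + r) :=
            h6.trans (mul_le_mul_of_nonneg_left h7 (by positivity))
          calc κ' / 2 / (m + 2) * Real.log ((1 + |s.im + w|) * C π)
              ≤ κ' / 2 / (m + 2) * ((m + 2) * (Real.log (Ct π s.im) + r)) :=
                mul_le_mul_of_nonneg_left h8 (by positivity)
            _ = κ' / 2 * (Real.log (Ct π s.im) + r) := by field_simp
      _ = Real.exp (Real.log (max B 1) + κ' / 2 * (Real.log (Ct π s.im) + r)) := by rw [← Real.exp_add]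
      _ ≤ _ := by
          apply Real.exp_le_exp.2
          have : 0 ≤ κ' * r := by positivity
          linarith)
  change ‖L π s‖ < Real.exp (δ * Real.log (Ct π s.im)) at h5
  rw [h3, rpow_exp (Ct_one π _)] at h5
  have h6 := Real.exp_lt_exp.1 h5
  have h7 : δ * Real.log (Ct π s.im) ≤ a * Real.log (Ct π s.im) :=
    mul_le_mul_of_nonneg_right h4 (Real.log_nonneg (Ct_one π _))
  linarith

/-- the conductor at polynomial heights -/
lemma poly_le (hm : 1 ≤ m) (π : CuspidalL m) {A t : ℝ} (hA : 0 ≤ A) (hC : 2 ≤ C π) (ht : |t| ≤ C π ^ A) :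
    Real.log (Ct π t) ≤ m * (A + 2) * Real.log (C π) := by
  have h0 : 0 < C π := by linarith
  have h1 : 1 ≤ C π ^ A := Real.one_le_rpow (by linarith) hA
  have h2 : 1 + |t| ≤ C π ^ (A + 1) := by
    rw [Real.rpow_add h0, Real.rpow_one]
    nlinarith
  have h3 : (1 + |t|) * C π ≤ C π ^ (A + 2) := by
    rw [show A + 2 = (A + 1) + 1 by ring, Real.rpow_add h0, Real.rpow_one]
    exact mul_le_mul_of_nonneg_right h2 h0.le
  have h4 : Real.log ((1 + |t|) * C π) ≤ (A + 2) * Real.log (C π) := by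
    rw [← Real.log_rpow h0]
    exact Real.log_le_log (by linarith [C_one π t]) h3
  refine (lows hm π t).2.trans ?_
  rw [mul_assoc]
  exact mul_le_mul_of_nonneg_left h4 (Nat.cast_nonneg m)

lemma small_to_poly (hm : 1 ≤ m) {P : CuspidalL m → Prop} (h : NewmanSmall P) : PolynomialHeights P := by
  intro ε A0 hε
  have hm' : (1 : ℝ) ≤ m := by exact_mod_cast hm
  obtain ⟨A, hA⟩ : ∃ A : ℝ, A = max A0 0 := ⟨_, rfl⟩
  have hA0 : 0 ≤ A := by rw [hA]; exact le_max_right _ _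
  have hAA : A0 ≤ A := by rw [hA]; exact le_max_left _ _
  obtain ⟨k, hk⟩ : ∃ k : ℝ, k = m * (A + 2) := ⟨_, rfl⟩
  have hk1 : 1 ≤ k := by rw [hk]; nlinarith
  obtain ⟨e, he⟩ : ∃ e : ℝ, e = ε / (4 * k ^ 2) := ⟨_, rfl⟩
  have he0 : 0 < e := by rw [he]; positivity
  have hek2 : e * k * k = ε / 4 := by rw [he]; field_simp
  have hek : e * k ≤ ε / 4 := by
    rw [← hek2]
    exact le_mul_of_one_le_right (by positivity) hk1
  obtain ⟨δ0, hδ0, HT⟩ := two hm he0
  obtain ⟨δ, hδ⟩ : ∃ δ : ℝ, δ = min δ0 e := ⟨_, rfl⟩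
  have hδp : 0 < δ := by rw [hδ]; exact lt_min hδ0 he0
  have hδ1 : δ ≤ δ0 := by rw [hδ]; exact min_le_left _ _
  have hδ2 : δ ≤ e := by rw [hδ]; exact min_le_right _ _
  obtain ⟨Q1, hQ1, H1⟩ := HT δ hδp hδ1
  obtain ⟨Q2, H2⟩ := h e he0
  obtain ⟨Q3, hQ3, HQ⟩ := Qm_large (m := m) 2
  refine ⟨max (max Q1 Q2) (max Q3 2), fun π hP hC => ?_⟩
  have hC1 : Q1 ≤ C π := (le_max_left _ _).trans ((le_max_left _ _).trans hC)
  have hC2 : Q2 ≤ C π := (le_max_right _ _).trans ((le_max_left _ _).trans hC)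
  have hC3 : Q3 ≤ C π := (le_max_left _ _).trans ((le_max_right _ _).trans hC)
  have hC4 : 2 ≤ C π := (le_max_right _ _).trans ((le_max_right _ _).trans hC)
  have hl : 0 < Real.log (C π) := Real.log_pos (by linarith)
  have hCt : ∀ t, 1 < Ct π t := fun t => lt_of_lt_of_le (by linarith [HQ π hC3]) (Qm_le hm π t)
  have hlt : ∀ t, 0 < Real.log (Ct π t) := fun t => Real.log_pos (hCt t)
  have hpow : ∀ t : ℝ, |t| ≤ C π ^ A0 → Real.log (Ct π t) ≤ k * Real.log (C π) := fun t ht => by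
    rw [hk]
    exact poly_le hm π hA0 hC4 (ht.trans (Real.rpow_le_rpow_of_exponent_le (by linarith) hAA))
  have hlev : ∀ v ∈ zeroLevels π ∪ valueLevels π δ, v ≤ 2 * e / Real.log (C π) := fun v hv => by
    refine ((H1 π hC1).2 v hv).trans ?_
    have h3 := H2 π hP hC2
    have h4 : 2 * e / Real.log (C π) = e / Real.log (C π) + e / Real.log (C π) := by ring
    linarith
  -- a level at polynomial height is small
  have hlow : ∀ (t x : ℝ), |t| ≤ C π ^ A0 → x / Real.log (Ct π t) ≤ 2 * e / Real.log (C π) →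
      x ≤ 2 * (e * k) := fun t x ht hx => by
    rw [div_le_iff₀ (hlt t)] at hx
    have h3 : 2 * e / Real.log (C π) * Real.log (Ct π t) ≤ 2 * e / Real.log (C π) * (k * Real.log (C π)) :=
      mul_le_mul_of_nonneg_left (hpow t ht) (by positivity)
    have h4 : 2 * e / Real.log (C π) * (k * Real.log (C π)) = 2 * (e * k) := by field_simp
    linarith
  constructor
  · intro t ht
    have hs1 : ((1 / 2 : ℂ) + (t : ℂ) * I).re = 1 / 2 := by simp
    have hs2 : ((1 / 2 : ℂ) + (t : ℂ) * I).im = t := by simp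
    rw [rpow_exp (by linarith : 1 ≤ C π)]
    rcases lt_or_ge ‖L π (1 / 2 + (t : ℂ) * I)‖ (Real.exp (δ * Real.log (Ct π t))) with h3 | h3
    · refine h3.le.trans (Real.exp_le_exp.2 ?_)
      have h4 : δ * Real.log (Ct π t) ≤ e * (k * Real.log (C π)) :=
        mul_le_mul hδ2 (hpow t ht) (hlt t).le he0.le
      have h5 : e * (k * Real.log (C π)) ≤ ε / 4 * Real.log (C π) := by
        rw [← mul_assoc]
        exact mul_le_mul_of_nonneg_right hek hl.le
      have h6 : 0 < ε * Real.log (C π) := by positivity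
      linarith
    · have hpos : 0 < ‖L π (1 / 2 + (t : ℂ) * I)‖ := lt_of_lt_of_le (Real.exp_pos _) h3
      obtain ⟨a, ha⟩ : ∃ a : ℝ, a = Real.log ‖L π (1 / 2 + (t : ℂ) * I)‖ / Real.log (Ct π t) := ⟨_, rfl⟩
      have haL : Real.log ‖L π (1 / 2 + (t : ℂ) * I)‖ = a * Real.log (Ct π t) := by
        rw [ha, div_mul_cancel₀ _ (hlt t).ne']
      have haδ : δ ≤ a := by
        rw [ha, le_div_iff₀ (hlt t), ← Real.log_exp (δ * Real.log (Ct π t))]
        exact Real.log_le_log (Real.exp_pos _) h3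
      have h4 := hlev _ (Or.inr ⟨1 / 2 + (t : ℂ) * I, a, by rw [hs1], by rw [hs1]; norm_num, by
        rw [hs2, rpow_exp (hCt t).le, ← haL, Real.exp_log hpos], haδ, rfl⟩)
      rw [hs1, hs2, sub_self] at h4
      have h5 := hlow t _ ht h4
      have h6 : 4 * a ≤ g 0 a := by
        unfold g
        rw [add_zero, Real.sqrt_mul_self (by linarith)]
        linarith
      rw [← Real.exp_log hpos, haL]
      apply Real.exp_le_exp.2
      have h7 : a * Real.log (Ct π t) ≤ a * (k * Real.log (C π)) :=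
        mul_le_mul_of_nonneg_left (hpow t ht) (by linarith)
      have h8 : 4 * (a * k) ≤ 2 * (e * k * k) := by
        have h9 : 4 * a * k ≤ 2 * (e * k) * k := mul_le_mul_of_nonneg_right (h6.trans h5) (by linarith)
        linarith
      have h10 : a * k * Real.log (C π) ≤ ε * Real.log (C π) :=
        mul_le_mul_of_nonneg_right (by linarith) hl.le
      linarith
  · intro ρ hρ ht
    have h4 := hlev _ (Or.inl ⟨ρ, hρ, rfl⟩)
    have h5 := hlow ρ.im _ ht h4
    linarith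

lemma poly_to_small (hm : 1 ≤ m) {P : CuspidalL m → Prop} (h : PolynomialHeights P) : NewmanSmall P := by
  intro ε hε
  have hm' : (1 : ℝ) ≤ m := by exact_mod_cast hm
  have hm2 : (0 : ℝ) < m + 2 := by positivity
  obtain ⟨δ, hδ, HT⟩ := two hm (ε := ε / 2) (by positivity)
  obtain ⟨Q1, hQ1, H1⟩ := HT δ hδ le_rfl
  obtain ⟨R, κ', C0, hκ', HV⟩ := Run7.h833.novals m hm hδ
  obtain ⟨C3, HG⟩ := Run7.h833.gg3 m hm
  obtain ⟨A, hA⟩ : ∃ A : ℝ, A = 6 * (m + 2) / ε := ⟨_, rfl⟩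
  have hA0 : 0 < A := by rw [hA]; positivity
  have hAε : ε * A = 6 * (m + 2) := by rw [hA]; field_simp
  obtain ⟨e, he⟩ : ∃ e : ℝ, e = min (ε / (2 * (m + 2))) (κ' / (m + 2)) := ⟨_, rfl⟩
  have he0 : 0 < e := by rw [he]; exact lt_min (by positivity) (by positivity)
  have he1 : e ≤ ε / (2 * (m + 2)) := by rw [he]; exact min_le_left _ _
  have he2 : e ≤ κ' / (m + 2) := by rw [he]; exact min_le_right _ _
  obtain ⟨Q2, H2⟩ := h e (A + 1) he0
  obtain ⟨Q3, hQ3, HQ⟩ := Qm_large (m := m) (max 2 (max C0 C3))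
  refine ⟨max (max Q1 Q2) (max Q3 (2 + |R|)), fun π hP hC => ?_⟩
  have hC1 : Q1 ≤ C π := (le_max_left _ _).trans ((le_max_left _ _).trans hC)
  have hC2 : Q2 ≤ C π := (le_max_right _ _).trans ((le_max_left _ _).trans hC)
  have hC3 : Q3 ≤ C π := (le_max_left _ _).trans ((le_max_right _ _).trans hC)
  have hC4 : 2 + |R| ≤ C π := (le_max_right _ _).trans ((le_max_right _ _).trans hC)
  have hR0 := abs_nonneg R
  have hCp : 0 < C π := by linarith
  have hl : 0 < Real.log (C π) := Real.log_pos (by linarith)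
  have hQ := HQ π hC3
  have hCt : ∀ t, 1 < Ct π t := fun t =>
    lt_of_lt_of_le (by linarith [le_max_left 2 (max C0 C3)]) (Qm_le hm π t)
  have hlt : ∀ t, 0 < Real.log (Ct π t) := fun t => Real.log_pos (hCt t)
  obtain ⟨hL2, hZ2⟩ := H2 π hP hC2
  have hAA : C π ^ A ≤ C π ^ (A + 1) := Real.rpow_le_rpow_of_exponent_le (by linarith) (by linarith)
  have hu : 0 ≤ ε / 2 / Real.log (C π) := by positivity
  -- the level at the height `t`
  have hlv : ∀ t : ℝ, ε / 2 / (m + 2) ≤ ε / 2 / Real.log (C π) * Real.log (Ct π t) := fun t => by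
    rw [div_mul_eq_mul_div, div_le_div_iff₀ hm2 hl]
    have := mul_le_mul_of_nonneg_left (low hm π t) (by positivity : (0 : ℝ) ≤ ε / 2)
    linarith
  have hlv2 : ∀ t : ℝ, C π ^ A < |t| → 3 ≤ ε / 2 / Real.log (C π) * Real.log (Ct π t) := fun t ht => by
    rw [div_mul_eq_mul_div, le_div_iff₀ hl]
    have h3 : A * Real.log (C π) ≤ (m + 2) * Real.log (Ct π t) := by
      refine le_trans ?_ (lows hm π t).1
      rw [← Real.log_rpow hCp]
      refine Real.log_le_log (by positivity) ?_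
      have h4 : 1 ≤ C π := by linarith
      have h5 : 0 ≤ |t| := abs_nonneg t
      nlinarith
    have h4 := mul_le_mul_of_nonneg_left h3 hε.le
    have h5 : ε * (A * Real.log (C π)) = 6 * (m + 2) * Real.log (C π) := by rw [← mul_assoc, hAε]
    have h6 : (m + 2) * (3 * Real.log (C π)) ≤ (m + 2) * (ε / 2 * Real.log (Ct π t)) := by linarith
    exact le_of_mul_le_mul_left h6 hm2
  have h3 := (H1 π hC1).1 (ε / 2 / Real.log (C π)) hu (by
    rintro v (⟨ρ, h4, rfl⟩ | ⟨s, a, h4, h5, h6, h7, rfl⟩)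
    · rw [div_le_iff₀ (hlt _)]
      rcases le_or_gt |ρ.im| (C π ^ A) with h5 | h5
      · have h6 := hZ2 ρ h4 (h5.trans hAA)
        have h7 : e ≤ ε / 2 / (m + 2) := by
          refine he1.trans (le_of_eq ?_)
          field_simp
        linarith [hlv ρ.im]
      · have h6 : ρ.re ≤ 1 := by
          by_contra hcon
          push Not at hcon
          exact π.ne_zero ρ hcon h4
        linarith [hlv2 ρ.im h5]
    · rw [div_le_iff₀ (hlt _)]
      have hpos : 0 < ‖L π s‖ := by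
        rw [h6]
        exact Real.rpow_pos_of_pos (by linarith [hCt s.im]) _
      have hlog : Real.log ‖L π s‖ = a * Real.log (Ct π s.im) := by
        rw [h6, Real.log_rpow (by linarith [hCt s.im])]
      rcases le_or_gt |s.im| (C π ^ A) with h8 | h8
      · exfalso
        have h9 := HV π.N π.μ π.α π.ε π.Λ (std π) s h4 h5 (((le_max_left _ _).trans (le_max_right _ _)).trans
          (hQ.trans (Qm_le hm π s.im))) (fun w hw => by
          have h10 : |s.im + w| ≤ C π ^ (A + 1) := by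
            have h11 := abs_add_le s.im w
            have h12 : 1 ≤ C π ^ A := Real.one_le_rpow (by linarith) hA0.le
            have h13 : |w| ≤ |R| := hw.trans (le_abs_self R)
            rw [Real.rpow_add hCp, Real.rpow_one]
            nlinarith
          refine (hL2 (s.im + w) h10).trans ?_
          rw [rpow_exp (by linarith : 1 ≤ C π)]
          apply Real.exp_le_exp.2
          change _ ≤ κ' * Real.log (Ct π s.im)
          have h14 : e * Real.log (C π) ≤ κ' / (m + 2) * ((m + 2) * Real.log (Ct π s.im)) :=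
            mul_le_mul he2 (low hm π s.im) hl.le (by positivity)
          have h15 : κ' / (m + 2) * ((m + 2) * Real.log (Ct π s.im)) = κ' * Real.log (Ct π s.im) := by
            field_simp
          linarith)
        change ‖L π s‖ < Real.exp (δ * Real.log (Ct π s.im)) at h9
        rw [h6, rpow_exp (hCt _).le] at h9
        have h16 := Real.exp_lt_exp.1 h9
        have h17 : δ * Real.log (Ct π s.im) ≤ a * Real.log (Ct π s.im) :=
          mul_le_mul_of_nonneg_right h7 (hlt _).le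
        linarith
      · have h9 := HG π.N π.μ π.α π.ε π.Λ (std π) s h4 h5 (((le_max_right _ _).trans (le_max_right _ _)).trans
          (hQ.trans (Qm_le hm π s.im))) (by
            change 1 ≤ ‖L π s‖
            rw [h6]
            exact Real.one_le_rpow (hCt _).le (by linarith))
        change Run7.h833.gg (s.re - 1 / 2) (Real.log ‖L π s‖ / Real.log (Ct π s.im)) ≤ 3 at h9
        rw [hlog, mul_div_assoc, div_self (hlt _).ne', mul_one] at h9
        change g (s.re - 1 / 2) a ≤ 3 at h9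
        linarith [hlv2 s.im h8])
  refine h3.trans (le_of_eq ?_)
  ring

/-- **Main theorem.** Let `m ≥ 1`.  (1) For every `ε > 0` there is `δ₀ > 0` such that for every
`0 < δ ≤ δ₀` there is `Q₀` such that for all `π` with `C_π ≥ Q₀`: all zeros of `ξ_τ` are on the line for
`τ > Newman π`, not all of them are for `0 ≤ τ < Newman π`, and `Newman π` differs from the supremum of
`0`, the numbers `(Re ρ - 1/2) / log C_π(Im ρ)` for the zeros `ρ` and the numbers
`g(r, a) / log C_π(t)` for the values `|L(1/2 + r + i t, π)| = C_π(t)^a`, `a ≥ δ`, `0 ≤ r ≤ 1/2`, by at most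
`ε / log C_π`.  (2) If GLH holds for `P` then for every `ε > 0` there is `Q₀` such that for all `π ∈ P` with
`C_π ≥ Q₀`, `Newman π` differs from the supremum of `0` and the `(Re ρ - 1/2) / log C_π(Im ρ)` by at most
`ε / log C_π`.  (3) `Newman π = o(1 / log C_π)` for `π ∈ P` if and only if the Lindelöf bound holds and the
zeros are near the line for `π ∈ P` up to polynomial heights. -/
theorem result (hm : 1 ≤ m) :
    (∀ ε : ℝ, 0 < ε → ∃ δ₀ : ℝ, 0 < δ₀ ∧ ∀ δ : ℝ, 0 < δ → δ ≤ δ₀ → ∃ Q₀ : ℝ, ∀ π : CuspidalL m, Q₀ ≤ C π →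
      (∀ τ : ℝ, Newman π < τ → AllOn π τ) ∧ (∀ τ : ℝ, 0 ≤ τ → τ < Newman π → ¬ AllOn π τ) ∧
      BddAbove (zeroLevels π ∪ valueLevels π δ) ∧
      |Newman π - sSup (insert 0 (zeroLevels π ∪ valueLevels π δ))| ≤ ε / Real.log (C π)) ∧
    (∀ P : CuspidalL m → Prop, GLH P → ∀ ε : ℝ, 0 < ε → ∃ Q₀ : ℝ, ∀ π : CuspidalL m, P π → Q₀ ≤ C π →
      BddAbove (zeroLevels π) ∧
      |Newman π - sSup (insert 0 (zeroLevels π))| ≤ ε / Real.log (C π)) ∧
    ∀ P : CuspidalL m → Prop, NewmanSmall P ↔ PolynomialHeights P := by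
  refine ⟨fun ε hε => ?_, fun P hP ε hε => ?_, fun P => ⟨small_to_poly hm, poly_to_small hm⟩⟩
  · obtain ⟨δ0, hδ0, H⟩ := two hm hε
    refine ⟨δ0, hδ0, fun δ hδ hδ1 => ?_⟩
    obtain ⟨Q1, hQ1, H1⟩ := H δ hδ hδ1
    obtain ⟨Q2, hQ2, H2⟩ := nonemp hm
    refine ⟨max Q1 Q2, fun π hC => ?_⟩
    have hne := H2 π ((le_max_right _ _).trans hC)
    obtain ⟨h1, h2⟩ := H1 π ((le_max_left _ _).trans hC)
    have hl : 0 < Real.log (C π) := Real.log_pos (hQ1.trans_le ((le_max_left _ _).trans hC))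
    refine ⟨fun τ hτ => allOn_of hm hne hτ, fun τ h0 hτ h => ?_, ?_⟩
    · exact absurd (newman_le h0 h) (not_le.2 hτ)
    · exact sup_close (newman_nonneg hne) (by positivity) h1 h2
  · obtain ⟨δ0, hδ0, H⟩ := two hm hε
    obtain ⟨Q1, hQ1, H1⟩ := H δ0 hδ0 le_rfl
    obtain ⟨Q2, hQ2, H2⟩ := nonemp hm
    obtain ⟨Q3, H3⟩ := glh_no hm hP hδ0
    refine ⟨max (max Q1 Q2) Q3, fun π hπ hC => ?_⟩
    have hne := H2 π ((le_max_right _ _).trans ((le_max_left _ _).trans hC))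
    have h12 := H1 π ((le_max_left _ _).trans ((le_max_left _ _).trans hC))
    rw [H3 π hπ ((le_max_right _ _).trans hC), Set.union_empty] at h12
    have hl : 0 < Real.log (C π) :=
      Real.log_pos (hQ1.trans_le ((le_max_left _ _).trans ((le_max_left _ _).trans hC)))
    exact sup_close (newman_nonneg hne) (by positivity) h12.1 h12.2

end Pool.Agent.Results.MP_52e316_nt.NewmanConstants
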