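import Pool.Agent.Run7.h343.NV.Fin

/-!
Sub-Weyl bounds for the `L`-functions of all unitary Hecke characters of all number fields in the depth
aspect, with constants which depend on the degree `n` and on `ε` only.

Let `K` be a number field of degree `n` with discriminant `D`, `𝔭` a prime ideal of degree one, unramified over
the rational prime `p ≥ 7` below it, `𝔪` an ideal prime to `𝔭` and `ψ` a unitary Hecke character of `K` modulo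
`𝔪 𝔭 ^ ν`, with exact exponent `ν` at `𝔭`, of arbitrary infinity type:
`ψ ((x)) = ∏_w (x_w / |x|_w) ^ κ_w |x|_w ^ (i τ_w)` for `x = 1` mod `𝔪 𝔭 ^ ν`. We prove
`|L (1/2 + it, ψ)| ≤ C(n, ε) |D| ^ (3 (n + 2) / 4) (N 𝔪) ^ 2 p ^ (n + 4) (1 + |t| + ∑ |τ_w|) ^ (2 n + 1)
(1 + ∑ |κ_w|) ^ (3 n) (p ^ ν) ^ (19/116 + ε)`, and `19/116 < 1/6`.
-/

set_option autoImplicit false

namespace Pool.Agent.Results.MP_52e316_nt.SubWeylEveryHeckeCharacter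

open NumberField

section

variable {K : Type} [Field K] [NumberField K]

/-- the infinity type `∏_w (x_w / |x|_w) ^ κ_w |x|_w ^ (i τ_w)` over the infinite places `w`, where `x_w` is
the image of `x` under the chosen embedding of `w` -/
noncomputable def arch (κ : InfinitePlace K → ℤ) (τ : InfinitePlace K → ℝ) (x : K) : ℂ :=
  ∏ w : InfinitePlace K, ((w.embedding x / ((w x : ℝ) : ℂ)) ^ (κ w) *
    ((w x : ℝ) : ℂ) ^ ((τ w : ℂ) * Complex.I))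

/-- `ψ` is a unitary Hecke character modulo `𝔪 𝔭 ^ ν`, with exact exponent `ν` at `𝔭`, of infinity type
`κ`, `τ`: it is a completely multiplicative function of the integral ideals, of absolute value one on the
ideals prime to `𝔪 𝔭` and zero on the others, with `ψ ((x)) = arch κ τ x` for all `x = 1` mod `𝔪 𝔭 ^ ν`,
and this fails for some `x = 1` mod `𝔪 𝔭 ^ (ν - 1)` prime to `𝔭`. -/
structure IsHecke (𝔪 𝔭 : Ideal (𝓞 K)) (ν : ℕ) (κ : InfinitePlace K → ℤ) (τ : InfinitePlace K → ℝ)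
    (ψ : Ideal (𝓞 K) →*₀ ℂ) : Prop where
  norm_one : ∀ 𝔞 : Ideal (𝓞 K), 𝔞 ⊔ 𝔪 = ⊤ → ¬ 𝔞 ≤ 𝔭 → ‖ψ 𝔞‖ = 1
  zero : ∀ 𝔞 : Ideal (𝓞 K), 𝔞 ≤ 𝔭 → ψ 𝔞 = 0
  zero' : ∀ 𝔞 : Ideal (𝓞 K), 𝔞 ⊔ 𝔪 ≠ ⊤ → ψ 𝔞 = 0
  prin : ∀ x : 𝓞 K, x ≠ 0 → x - 1 ∈ 𝔪 * 𝔭 ^ ν → ψ (Ideal.span {x}) = arch κ τ (x : K)
  exact : ∃ x : 𝓞 K, x ∉ 𝔭 ∧ x - 1 ∈ 𝔪 * 𝔭 ^ (ν - 1) ∧ ψ (Ideal.span {x}) ≠ arch κ τ (x : K)

end

/-- **Theorem.** For every `n` and every `ε > 0` there is `C` such that for every number field `K` of degree `n`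
and discriminant `D`, every prime `p ≥ 7`, every prime ideal `𝔭` of norm `p` with `p ∉ 𝔭 ^ 2`, every non-zero
ideal `𝔪` prime to `𝔭`, every `ν ≥ 1` and every unitary Hecke character `ψ` modulo `𝔪 𝔭 ^ ν` with exact exponent
`ν` at `𝔭` and infinity type `κ`, `τ` there is an entire function `L` with `L s = ∑_𝔞 ψ (𝔞) (N 𝔞) ^ (-s)` for
`Re s > 1` and, for all real `t`,
`|L (1/2 + it)| ≤ C |D| ^ (3 (n + 2) / 4) (N 𝔪) ^ 2 p ^ (n + 4) (1 + |t| + ∑_w |τ_w|) ^ (2 n + 1)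
(1 + ∑_w |κ_w|) ^ (3 n) (p ^ ν) ^ (19/116 + ε)`. -/
theorem result (n : ℕ) : ∀ ε : ℝ, 0 < ε → ∃ C : ℝ, ∀ (K : Type) [Field K] [NumberField K],
    Module.finrank ℚ K = n →
    ∀ (p : ℕ) (𝔭 : Ideal (𝓞 K)), p.Prime → 7 ≤ p → Ideal.absNorm 𝔭 = p → (p : 𝓞 K) ∉ 𝔭 ^ 2 →
    ∀ 𝔪 : Ideal (𝓞 K), 𝔪 ≠ ⊥ → ¬ 𝔪 ≤ 𝔭 →
    ∀ ν : ℕ, 1 ≤ ν → ∀ (κ : InfinitePlace K → ℤ) (τ : InfinitePlace K → ℝ) (ψ : Ideal (𝓞 K) →*₀ ℂ),
    IsHecke 𝔪 𝔭 ν κ τ ψ →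
    ∃ L : ℂ → ℂ, Differentiable ℂ L ∧
      (∀ s : ℂ, 1 < s.re →
        HasSum (fun 𝔞 : Ideal (𝓞 K) => ψ 𝔞 * ((Ideal.absNorm 𝔞 : ℕ) : ℂ) ^ (-s)) (L s)) ∧
      ∀ t : ℝ, ‖L (1 / 2 + (t : ℂ) * Complex.I)‖ ≤
        C * |(discr K : ℝ)| ^ (3 * (n + 2 : ℝ) / 4) * (Ideal.absNorm 𝔪 : ℝ) ^ 2 * (p : ℝ) ^ (n + 4) *
          (1 + |t| + ∑ w : InfinitePlace K, |τ w|) ^ (2 * n + 1) *
          (1 + ∑ w : InfinitePlace K, |(κ w : ℝ)|) ^ (3 * n) * ((p : ℝ) ^ ν) ^ (19 / 116 + ε : ℝ) := by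
  intro ε hε
  obtain ⟨C, -, h⟩ := Run7.h343.NG.V.main_v n hε
  refine ⟨C, fun K _ _ hK p 𝔭 hp hp7 hN hunr 𝔪 h𝔪 h𝔪𝔭 ν hν κ τ ψ hψ => ?_⟩
  have harch : ∀ x : K, arch κ τ x = Run7.h343.NG.ap κ τ x := by
    intro x
    unfold arch Run7.h343.NG.ap Run7.h343.NG.an Run7.h343.NF.kp
    rw [Finset.prod_mul_distrib, mul_comm]
  have hH : Run7.h343.NG.HK 𝔪 𝔭 ν κ τ ψ := by
    refine ⟨hψ.norm_one, hψ.zero, hψ.zero', fun x hx hx1 => ?_, ?_⟩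
    · rw [← harch]
      exact hψ.prin x hx hx1
    · obtain ⟨x, h1, h2, h3⟩ := hψ.exact
      exact ⟨x, h1, h2, by rw [← harch]; exact h3⟩
  obtain ⟨L, h1, h2, h3⟩ := h K hK κ p 𝔭 ⟨hp, hN, hunr⟩ hp7 𝔪 h𝔪 h𝔪𝔭 ν hν τ ψ hH
  refine ⟨L, h1, fun s hs => ?_, h3⟩
  have h4 := (Pool.Agent.Y773.G.summable_LI hH.norm_le hs).hasSum
  rw [h2 s hs]
  exact h4

end Pool.Agent.Results.MP_52e316_nt.SubWeylEveryHeckeCharacter
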