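import Pool.Agent.Run7.h343.GI.Fin

/-!
Sub-Weyl bounds on `GL(2)` in the depth aspect: Hecke `L`-functions of `ℚ(i)` of conductor a power
of a split prime.

Let `p ≥ 7` be a prime, `p ^ ν ∣ ι ^ 2 + 1` (so `p ≡ 1` mod `4`), and let `𝔭` be the prime ideal
above `p` such that `a + b i ↦ a + b ι` induces `ℤ[i] / 𝔭 ^ ν = ℤ / p ^ ν`. A Dirichlet character `ψ`
mod `p ^ ν` is in this way a character `α ↦ ψ (α.re + ι α.im)` of the Gaussian integers modulo
`𝔭 ^ ν`, and `L(s, ψ) = ∑_α ψ (α.re + ι α.im) (N α) ^ (-s)`. If `ψ (ι) = 1` this is `4` times the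
`L`-function of a Hecke character of `ℚ(i)` with conductor `𝔭 ^ ν`, that is `4` times the `L`-function
of a cuspidal (dihedral) representation of `GL_2` over `ℚ` with conductor `4 p ^ ν`.

For `χ` primitive mod `q = p ^ ν` and `m < ν` the mean square of the central values `L(1/2 + it, χθ)`
over all characters `θ` mod `p ^ m` is `≪ q ^ ε (p ^ m + q ^ (19/58))` up to `p ^ 5 (1 + |t|) ^ 3`.
For `m = 0` this is the bound `q ^ (19/116 + ε)`, `19/116 < 1/6`, for individual values.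
-/

set_option autoImplicit false

namespace Pool.Agent.Results.MP_52e316_nt.SubWeylGaussianHecke

open Finset

/-- **Theorem.** For every `ε > 0` there is `C` such that for all primes `p ≥ 7`, all `m < ν`, all `ι`
with `ι ^ 2 = -1` mod `p ^ ν` and all primitive characters `χ` mod `p ^ ν` there are entire functions
`L θ`, one for each character `θ` mod `p ^ m`, such that
`L θ s = ∑_α (χ θ) (α.re + ι α.im) (N α) ^ (-s)` (sum over the Gaussian integers, absolutely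
convergent) for `Re s > 1`, and for all real `t`
`∑_θ |L θ (1/2 + it)| ^ 2 ≤ C p ^ 5 (1 + |t|) ^ 3 (p ^ ν) ^ ε (p ^ m + (p ^ ν) ^ (19/58))`. -/
theorem result : ∀ ε : ℝ, 0 < ε → ∃ C : ℝ, ∀ (p : ℕ) [Fact p.Prime], 7 ≤ p →
    ∀ (ν m : ℕ) (hmν : m < ν) (ι : ℤ), (p : ℤ) ^ ν ∣ ι ^ 2 + 1 →
    ∀ χ : DirichletCharacter ℂ (p ^ ν), χ.IsPrimitive →
    ∃ L : DirichletCharacter ℂ (p ^ m) → ℂ → ℂ,
      (∀ θ, Differentiable ℂ (L θ) ∧ ∀ s : ℂ, 1 < s.re →
        HasSum (fun α : GaussianInt =>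
          (χ * DirichletCharacter.changeLevel (pow_dvd_pow p hmν.le) θ)
            ((α.re + ι * α.im : ℤ) : ZMod (p ^ ν)) * ((α.re ^ 2 + α.im ^ 2 : ℤ) : ℂ) ^ (-s)) (L θ s)) ∧
      ∀ t : ℝ, ∑ θ : DirichletCharacter ℂ (p ^ m), ‖L θ (1 / 2 + (t : ℂ) * Complex.I)‖ ^ 2 ≤
        C * (p : ℝ) ^ 5 * (1 + |t|) ^ 3 * ((p : ℝ) ^ ν) ^ ε *
          ((p : ℝ) ^ m + ((p : ℝ) ^ ν) ^ (19 / 58 : ℝ)) := by
  intro ε hε
  obtain ⟨C, -, h⟩ := Run7.h343.GI.main_coset hε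
  refine ⟨C, fun p hpf hp7 ν m hmν ι hι χ hχ => ?_⟩
  have hp : p.Prime := hpf.out
  obtain ⟨ϖ, hfr⟩ := Run7.h343.GI.exists_fr hp (by omega) (by omega) hι
  have hex : ∀ θ : DirichletCharacter ℂ (p ^ m), ∃ L : ℂ → ℂ, Differentiable ℂ L ∧
      ∀ s : ℂ, 1 < s.re → L s = Run7.h343.GI.Ds
        (χ * DirichletCharacter.changeLevel (pow_dvd_pow p hmν.le) θ) ι s :=
    fun θ => Run7.h343.GI.exists_L hfr (by omega) (Pool.Agent.Y766.R3.prim_mul hp hmν hχ θ)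
  choose L hL hLs using hex
  refine ⟨L, fun θ => ⟨hL θ, fun s hs => ?_⟩, fun t => h p hp hp7 ν m hmν ι hι χ hχ L hL hLs t⟩
  have hsum : Summable fun α : GaussianInt =>
      (χ * DirichletCharacter.changeLevel (pow_dvd_pow p hmν.le) θ)
        ((Run7.h343.GI.red ι α : ℤ) : ZMod (p ^ ν)) * (Run7.h343.GI.Nn α : ℂ) ^ (-s) := by
    refine Summable.of_norm_bounded (Run7.h343.GI.sum_Nn hs) fun α => ?_
    by_cases h0 : α = 0
    · rw [h0, Run7.h343.GI.chi_zero hp (by omega), zero_mul, norm_zero, Run7.h343.GI.Nn_zero,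
        Int.cast_zero, Real.zero_rpow (by linarith)]
    · have h1 : (0 : ℝ) < (Run7.h343.GI.Nn α : ℤ) := by exact_mod_cast Run7.h343.GI.one_le_Nn h0
      rw [norm_mul]
      have h2 : ‖(Run7.h343.GI.Nn α : ℂ) ^ (-s)‖ = ((Run7.h343.GI.Nn α : ℤ) : ℝ) ^ (-s.re) := by
        have e1 : (Run7.h343.GI.Nn α : ℂ) = (((Run7.h343.GI.Nn α : ℤ) : ℝ) : ℂ) := by push_cast; rfl
        rw [e1, Complex.norm_cpow_eq_rpow_re_of_pos h1, Complex.neg_re]
      rw [h2]
      exact mul_le_of_le_one_left (by positivity) (DirichletCharacter.norm_le_one _ _)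
  have h3 := hsum.hasSum
  rw [hLs θ s hs]
  exact h3

end Pool.Agent.Results.MP_52e316_nt.SubWeylGaussianHecke
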